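import Mathlib

/-!
# Divergence of the sum of the reciprocals of the primes in a residue class (helper615 for helper70)
-/

set_option autoImplicit false

open Filter Topology
open ArithmeticFunction.vonMangoldt

namespace Pool.Agent.N615.EO

/-- reciprocals of the primes in a residue class -/
noncomputable def rp {q : ℕ} (a : ZMod q) (n : ℕ) : ℝ :=
  open Classical in if n.Prime ∧ (n : ZMod q) = a then 1 / (n : ℝ) else 0

lemma rp_nonneg {q : ℕ} (a : ZMod q) (n : ℕ) : 0 ≤ rp a n := by
  unfold rp
  split_ifs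
  · positivity
  · exact le_rfl

/-- one term of the series -/
lemma term_le {q : ℕ} (a : ZMod q) {x : ℝ} (hx : 1 < x) (n : ℕ) :
    residueClass a n / (n : ℝ) ^ x ≤ (if n.Prime then 0 else residueClass a n) / n +
      min (rp a n * Real.log n) (rp a n * (x - 1)⁻¹) := by
  rcases n.eq_zero_or_pos with rfl | hn
  · simp [rp, Nat.not_prime_zero]
  have hn1 : (1 : ℝ) ≤ n := by exact_mod_cast hn
  have hn0 : (0 : ℝ) < n := by linarith
  have hx0 : 0 < x - 1 := by linarith
  have hle : (n : ℝ) ≤ (n : ℝ) ^ x := by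
    conv_lhs => rw [← Real.rpow_one (n : ℝ)]
    exact Real.rpow_le_rpow_of_exponent_le hn1 hx.le
  by_cases hp : n.Prime
  · rw [if_pos hp, zero_div, zero_add]
    by_cases ha : (n : ZMod q) = a
    · have h1 : residueClass a n = Real.log n := by
        rw [residueClass, Set.indicator_of_mem (show n ∈ {n : ℕ | (n : ZMod q) = a} from ha)]
        exact ArithmeticFunction.vonMangoldt_apply_prime hp
      have h2 : rp a n = 1 / (n : ℝ) := by
        unfold rp
        rw [if_pos ⟨hp, ha⟩]
      have hlog : 0 ≤ Real.log n := Real.log_nonneg hn1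
      rw [h1, h2]
      refine le_min ?_ ?_
      · rw [one_div, inv_mul_eq_div]
        exact div_le_div_of_nonneg_left hlog hn0 hle
      · have h3 : (n : ℝ) ^ x = n * (n : ℝ) ^ (x - 1) := by
          rw [Real.rpow_sub hn0, Real.rpow_one]
          field_simp
        have h4 : (x - 1) * Real.log n ≤ (n : ℝ) ^ (x - 1) := by
          rw [Real.rpow_def_of_pos hn0]
          have := Real.add_one_le_exp (Real.log n * (x - 1))
          linarith
        have h5 : 0 < (n : ℝ) ^ (x - 1) := Real.rpow_pos_of_pos hn0 _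
        rw [h3]
        have h6 : Real.log n / (n * (n : ℝ) ^ (x - 1)) = 1 / n * (Real.log n / (n : ℝ) ^ (x - 1)) := by
          field_simp
        rw [h6]
        refine mul_le_mul_of_nonneg_left ?_ (by positivity)
        rw [div_le_iff₀ h5, ← div_eq_inv_mul, le_div_iff₀ hx0]
        linarith
    · have h1 : residueClass a n = 0 := by
        rw [residueClass, Set.indicator_of_notMem (show n ∉ {n : ℕ | (n : ZMod q) = a} from ha)]
      rw [h1, zero_div]
      refine le_min ?_ ?_
      · exact mul_nonneg (rp_nonneg a n) (Real.log_nonneg hn1)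
      · exact mul_nonneg (rp_nonneg a n) (inv_nonneg.2 hx0.le)
  · rw [if_neg hp]
    have h1 : 0 ≤ min (rp a n * Real.log n) (rp a n * (x - 1)⁻¹) :=
      le_min (mul_nonneg (rp_nonneg a n) (Real.log_nonneg hn1)) (mul_nonneg (rp_nonneg a n) (inv_nonneg.2 hx0.le))
    have h2 : residueClass a n / (n : ℝ) ^ x ≤ residueClass a n / n :=
      div_le_div_of_nonneg_left (residueClass_nonneg a n) hn0 hle
    linarith

/-- **divergence** -/
theorem not_summable_rp {q : ℕ} [NeZero q] (a : ZMod q) (ha : IsUnit a) : ¬ Summable (rp a) := by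
  classical
  intro hs
  obtain ⟨C, hC⟩ := LSeries_residueClass_lower_bound ha
  have hg := summable_residueClass_non_primes_div a
  set G : ℝ := ∑' n : ℕ, (if n.Prime then 0 else residueClass a n) / n with hG
  set φ : ℝ := (q.totient : ℝ)⁻¹ with hφ
  have hφ0 : 0 < φ := inv_pos.mpr (mod_cast q.totient.pos_of_neZero)
  obtain ⟨T, hT⟩ : ∃ T : Finset ℕ, |∑ n ∈ T, rp a n - ∑' n, rp a n| < φ / 2 := by
    have h := hs.hasSum
    rw [HasSum, SummationFilter.unconditional_filter, Metric.tendsto_nhds] at h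
    obtain ⟨T, hT⟩ := (h (φ / 2) (by positivity)).exists
    exact ⟨T, by rwa [Real.dist_eq] at hT⟩
  set B : ℝ := ∑ n ∈ T, rp a n * Real.log n with hB
  have key : ∀ x : ℝ, x ∈ Set.Ioc (1 : ℝ) 2 → φ / (x - 1) - C ≤ G + (B + (x - 1)⁻¹ * (φ / 2)) := by
    intro x hx
    have hx0 : 0 < x - 1 := by linarith [hx.1]
    refine (hC hx).trans ?_
    have h1 : HasSum (fun n => if n ∈ T then rp a n * Real.log n else 0) B := by
      have : HasSum (fun n => if n ∈ T then rp a n * Real.log n else 0)
          (∑ n ∈ T, if n ∈ T then rp a n * Real.log n else 0) :=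
        hasSum_sum_of_ne_finset_zero (fun b hb => if_neg hb)
      rwa [Finset.sum_congr rfl (g := fun n => rp a n * Real.log n) (fun n hn => if_pos hn)] at this
    have h2 : HasSum (fun n => if n ∈ T then rp a n else 0) (∑ n ∈ T, rp a n) := by
      have : HasSum (fun n => if n ∈ T then rp a n else 0) (∑ n ∈ T, if n ∈ T then rp a n else 0) :=
        hasSum_sum_of_ne_finset_zero (fun b hb => if_neg hb)
      rwa [Finset.sum_congr rfl (g := fun n => rp a n) (fun n hn => if_pos hn)] at this
    have h3 : HasSum (fun n => (x - 1)⁻¹ * (rp a n - if n ∈ T then rp a n else 0))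
        ((x - 1)⁻¹ * (∑' n, rp a n - ∑ n ∈ T, rp a n)) := (hs.hasSum.sub h2).mul_left _
    have h4 := hg.hasSum.add (h1.add h3)
    have h5 : ∑' n : ℕ, residueClass a n / (n : ℝ) ^ x ≤
        G + (B + (x - 1)⁻¹ * (∑' n, rp a n - ∑ n ∈ T, rp a n)) := by
      refine hasSum_le (fun n => ?_) (Summable.hasSum ?_) h4
      · refine (term_le a hx.1 n).trans ?_
        refine add_le_add le_rfl ?_
        by_cases hn : n ∈ T
        · rw [if_pos hn, if_pos hn, sub_self, mul_zero, add_zero]
          exact min_le_left _ _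
        · rw [if_neg hn, if_neg hn, sub_zero, zero_add, mul_comm ((x - 1)⁻¹)]
          exact min_le_right _ _
      · exact LSeries.summable_real_of_abscissaOfAbsConv_lt <|
          (abscissaOfAbsConv_residueClass_le_one a).trans_lt <| mod_cast hx.1
    refine h5.trans ?_
    have h6 : ∑' n, rp a n - ∑ n ∈ T, rp a n ≤ φ / 2 := by
      have := (abs_lt.1 hT).1
      linarith
    have h7 : (x - 1)⁻¹ * (∑' n, rp a n - ∑ n ∈ T, rp a n) ≤ (x - 1)⁻¹ * (φ / 2) :=
      mul_le_mul_of_nonneg_left h6 (inv_nonneg.2 hx0.le)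
    linarith
  set D : ℝ := |G + B + C| + 1 with hD
  have hD0 : 0 < D := by positivity
  have hd : 0 < min 1 (φ / (4 * D)) := lt_min one_pos (by positivity)
  have h := key (1 + min 1 (φ / (4 * D))) ⟨by linarith, by linarith [min_le_left 1 (φ / (4 * D))]⟩
  set y : ℝ := min 1 (φ / (4 * D)) with hy
  have hy2 : y ≤ φ / (4 * D) := min_le_right _ _
  rw [add_sub_cancel_left] at h
  have h1 : φ / y - y⁻¹ * (φ / 2) = φ / 2 / y := by
    field_simp
    ring
  have h2 : 2 * D ≤ φ / 2 / y := by
    rw [le_div_iff₀ hd]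
    rw [le_div_iff₀ (by positivity)] at hy2
    linarith
  have h3 : G + B + C ≤ D := by
    rw [hD]
    linarith [le_abs_self (G + B + C)]
  linarith

/-- the copy of the statement of the project -/
theorem dna_core : ∀ (c : ℕ), 0 < c → ∀ δ : ℝ, 0 < δ → ∃ U : Finset ℕ,
    (∀ u ∈ U, u.Prime ∧ u % 4 = 3 ∧ Nat.Coprime u c) ∧ ∏ u ∈ U, (1 - 1 / (u : ℝ)) < δ := by
  classical
  intro c hc δ hδ
  have ha : IsUnit (3 : ZMod 4) := by decide
  have hns := not_summable_rp (3 : ZMod 4) ha
  have hns2 : ¬ Summable (fun n => if n ∈ Finset.range (c + 1) then (0 : ℝ) else rp (3 : ZMod 4) n) := by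
    intro hs
    apply hns
    have h2 : Summable (fun n => if n ∈ Finset.range (c + 1) then rp (3 : ZMod 4) n else 0) :=
      summable_of_ne_finset_zero (s := Finset.range (c + 1)) (fun b hb => if_neg hb)
    refine (hs.add h2).congr fun n => ?_
    by_cases hn : n ∈ Finset.range (c + 1)
    · rw [if_pos hn, if_pos hn, zero_add]
    · rw [if_neg hn, if_neg hn, add_zero]
  rw [not_summable_iff_tendsto_nat_atTop_of_nonneg (fun n => by
    split_ifs
    · exact le_rfl
    · exact rp_nonneg _ _)] at hns2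
  obtain ⟨n, hn⟩ := (hns2.eventually_gt_atTop (-Real.log δ)).exists
  refine ⟨(Finset.range n).filter (fun u => c < u ∧ u.Prime ∧ (u : ZMod 4) = 3), ?_, ?_⟩
  · intro u hu
    rw [Finset.mem_filter] at hu
    obtain ⟨-, h1, h2, h3⟩ := hu
    refine ⟨h2, ?_, ?_⟩
    · have h4 : ((u : ℕ) : ZMod 4) = ((3 : ℕ) : ZMod 4) := by rw [h3]; rfl
      have h5 := (ZMod.natCast_eq_natCast_iff _ _ _).1 h4
      exact h5
    · rw [Nat.Prime.coprime_iff_not_dvd h2]
      intro h
      have := Nat.le_of_dvd hc h
      omega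
  · have e1 : ∑ i ∈ Finset.range n, (if i ∈ Finset.range (c + 1) then (0 : ℝ) else rp (3 : ZMod 4) i) =
        ∑ u ∈ (Finset.range n).filter (fun u => c < u ∧ u.Prime ∧ (u : ZMod 4) = 3), 1 / (u : ℝ) := by
      rw [Finset.sum_filter]
      refine Finset.sum_congr rfl fun i _ => ?_
      unfold rp
      by_cases h1 : i ∈ Finset.range (c + 1)
      · rw [if_pos h1, if_neg]
        rintro ⟨h2, -⟩
        rw [Finset.mem_range] at h1
        omega
      · rw [if_neg h1]
        rw [Finset.mem_range] at h1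
        by_cases h2 : i.Prime ∧ (i : ZMod 4) = 3
        · rw [if_pos h2, if_pos ⟨by omega, h2⟩]
        · rw [if_neg h2, if_neg (fun h3 => h2 h3.2)]
    rw [e1] at hn
    calc ∏ u ∈ (Finset.range n).filter (fun u => c < u ∧ u.Prime ∧ (u : ZMod 4) = 3), (1 - 1 / (u : ℝ))
        ≤ ∏ u ∈ (Finset.range n).filter (fun u => c < u ∧ u.Prime ∧ (u : ZMod 4) = 3), Real.exp (-(1 / (u : ℝ))) := by
          refine Finset.prod_le_prod (fun u hu => ?_) (fun u _ => Real.one_sub_le_exp_neg _)
          rw [Finset.mem_filter] at hu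
          have : (1 : ℝ) ≤ u := by exact_mod_cast hu.2.2.1.one_lt.le
          rw [sub_nonneg, div_le_one (by linarith)]
          exact this
      _ = Real.exp (-∑ u ∈ (Finset.range n).filter (fun u => c < u ∧ u.Prime ∧ (u : ZMod 4) = 3), 1 / (u : ℝ)) := by
          rw [← Real.exp_sum, Finset.sum_neg_distrib]
      _ < Real.exp (Real.log δ) := Real.exp_lt_exp.2 (by linarith)
      _ = δ := Real.exp_log hδ

end Pool.Agent.N615.EO
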