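import Pool.Agent.N70.EO.Stm
import Pool.Agent.N615.EO.Dn0

/-!
# There are many primes congruent to 3 modulo 4 (helper615 for helper70)
-/

set_option autoImplicit false

namespace Pool.Agent.N615.EO

theorem t_dna : Pool.Agent.N70.EO.St_dna := dna_core

end Pool.Agent.N615.EO
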